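import Mathlib

set_option autoImplicit false

open MeasureTheory Set Metric Filter Topology
open scoped RealInnerProductSpace ENNReal

namespace Pool.Agent.Results.MP_c699aa_gt.Full

abbrev V (n : ℕ) := EuclideanSpace ℝ (Fin n)

/-- length of the chord set of `E` on the line through `x` in direction `u` -/
noncomputable def ell {n : ℕ} (E : Set (V n)) (u x : V n) : ℝ≥0∞ := volume {t : ℝ | x + t • u ∈ E}

/-- Steiner symmetrization -/
def stein {n : ℕ} (u : V n) (E : Set (V n)) : Set (V n) :=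
  {z | ∃ (x : V n) (t : ℝ), x ∈ (fun y => y - ⟪y, u⟫ • u) '' E ∧ |t| ≤ (ell E u x).toReal / 2 ∧
    z = x + t • u}

/-- `E_0 = E`, `E_{i+1} = S_{u i} E_i` -/
def iter {n : ℕ} (u : ℕ → V n) (E : Set (V n)) : ℕ → Set (V n)
  | 0 => E
  | i + 1 => stein (u i) (iter u E i)

variable {n : ℕ}

lemma ell_shift (E : Set (V n)) (u x : V n) (s : ℝ) : ell E u (x + s • u) = ell E u x := by
  unfold ell
  rw [← measure_preimage_add volume s {t : ℝ | x + t • u ∈ E}]
  congr 1
  ext t
  simp [add_smul, add_assoc]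

lemma ell_meas {E : Set (V n)} (hE : MeasurableSet E) (u : V n) : Measurable (ell E u) :=
  measurable_measure_prodMk_left (ν := volume) (s := {p : V n × ℝ | p.1 + p.2 • u ∈ E})
    (hE.preimage (by fun_prop))

lemma slab {E : Set (V n)} (hE : MeasurableSet E) {u : V n} (hu : ‖u‖ = 1) :
    volume E = ∫⁻ z, {z : V n | |⟪z, u⟫| ≤ 1 / 2}.indicator (ell E u) z := by
  set S := {z : V n | |⟪z, u⟫| ≤ 1 / 2}
  have hS : MeasurableSet S := (isClosed_le (by fun_prop) (by fun_prop)).measurableSet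
  have m1 : MeasurableSet {p : V n × ℝ | p.1 ∈ S ∧ p.1 + p.2 • u ∈ E} :=
    (hS.preimage measurable_fst).inter (hE.preimage (by fun_prop))
  have m2 : MeasurableSet {p : V n × ℝ | p.1 - p.2 • u ∈ S ∧ p.1 ∈ E} :=
    (hS.preimage (by fun_prop)).inter (hE.preimage measurable_fst)
  have e1 : (volume.prod volume) {p : V n × ℝ | p.1 ∈ S ∧ p.1 + p.2 • u ∈ E} =
      ∫⁻ z, S.indicator (ell E u) z := by
    rw [Measure.prod_apply m1]
    congr 1
    ext z
    by_cases hz : z ∈ S <;> simp [hz, ell, preimage]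
  have e2 : (volume.prod volume) {p : V n × ℝ | p.1 - p.2 • u ∈ S ∧ p.1 ∈ E} = volume E := by
    rw [Measure.prod_apply m2, ← one_mul (volume E), ← lintegral_indicator_const hE]
    congr 1
    ext z
    by_cases hz : z ∈ E
    · have : Prod.mk z ⁻¹' {p : V n × ℝ | p.1 - p.2 • u ∈ S ∧ p.1 ∈ E} =
          Icc (⟪z, u⟫ - 1 / 2) (⟪z, u⟫ + 1 / 2) := by
        ext t
        simp only [S, mem_preimage, mem_setOf_eq, hz, and_true, inner_sub_left, inner_smul_left,
          real_inner_self_eq_norm_sq, hu, conj_trivial, abs_le, mem_Icc]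
        constructor <;> rintro ⟨a, b⟩ <;> constructor <;> linarith
      rw [this, Real.volume_Icc, indicator_of_mem hz]
      norm_num
    · simp [hz, preimage]
  rw [← e1, ← e2, Measure.prod_apply_symm m1, Measure.prod_apply_symm m2]
  congr 1
  ext t
  rw [← measure_preimage_add_right volume (t • u)]
  congr 1
  ext z
  simp

/-- measurable inner version -/
def inn (u : V n) (F : Set (V n)) : Set (V n) := {z | ENNReal.ofReal (2 * |⟪z, u⟫|) < ell F u z}

lemma inn_meas {F : Set (V n)} (hF : MeasurableSet F) (u : V n) : MeasurableSet (inn u F) :=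
  measurableSet_lt (by fun_prop) (ell_meas hF u)

lemma inn_vol {F : Set (V n)} (hF : MeasurableSet F) {u : V n} (hu : ‖u‖ = 1)
    (hf : ∀ z, ell F u z ≠ ⊤) : volume (inn u F) = volume F := by
  rw [slab hF hu, slab (inn_meas hF u) hu]
  suffices H : ell (inn u F) u = ell F u by rw [H]
  ext z
  have : {t : ℝ | z + t • u ∈ inn u F} =
      Ioo (-⟪z, u⟫ - (ell F u z).toReal / 2) (-⟪z, u⟫ + (ell F u z).toReal / 2) := by
    ext t
    simp only [inn, mem_setOf_eq, ell_shift, inner_add_left, inner_smul_left,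
      real_inner_self_eq_norm_sq, hu, conj_trivial, mem_Ioo]
    rw [ENNReal.ofReal_lt_iff_lt_toReal (by positivity) (hf z), ← lt_div_iff₀' two_pos, abs_lt]
    constructor <;> rintro ⟨a, b⟩ <;> constructor <;> linarith
  conv_lhs => unfold ell
  rw [this, Real.volume_Ioo]
  conv_rhs => rw [← ENNReal.ofReal_toReal (hf z)]
  congr 1
  ring

lemma ell_le {E : Set (V n)} {R : ℝ} (hE : E ⊆ closedBall 0 R) {u x : V n} (hu : ‖u‖ = 1)
    (hx : ⟪x, u⟫ = 0) : ell E u x ≤ ENNReal.ofReal (2 * √(R ^ 2 - ‖x‖ ^ 2)) := by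
  have : {t : ℝ | x + t • u ∈ E} ⊆ Icc (-√(R ^ 2 - ‖x‖ ^ 2)) (√(R ^ 2 - ‖x‖ ^ 2)) := by
    intro t ht
    have h1 := mem_closedBall_zero_iff.1 (hE ht)
    have h2 := norm_add_sq_real x (t • u)
    rw [inner_smul_right, hx, norm_smul, hu, Real.norm_eq_abs, mul_one, sq_abs] at h2
    have h3 : ‖x + t • u‖ ^ 2 ≤ R ^ 2 := pow_le_pow_left₀ (norm_nonneg _) h1 2
    exact abs_le.1 (Real.abs_le_sqrt (by linarith))
  refine (measure_mono this).trans ?_
  rw [Real.volume_Icc]
  apply le_of_eq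
  congr 1
  ring

lemma perp {u : V n} (hu : ‖u‖ = 1) (y : V n) : ⟪y - ⟪y, u⟫ • u, u⟫ = 0 := by
  simp [inner_sub_left, inner_smul_left, hu]

lemma ell_fin {E : Set (V n)} {R : ℝ} (hE : E ⊆ closedBall 0 R) {u : V n} (hu : ‖u‖ = 1) (z : V n) :
    ell E u z ≠ ⊤ := by
  rw [← ell_shift E u z (-⟪z, u⟫), neg_smul, ← sub_eq_add_neg]
  exact ne_top_of_le_ne_top ENNReal.ofReal_ne_top (ell_le hE hu (perp hu z))

lemma stein_ball {E : Set (V n)} {R : ℝ} (hE : E ⊆ closedBall 0 R) {u : V n} (hu : ‖u‖ = 1) :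
    stein u E ⊆ closedBall 0 R := by
  rintro _ ⟨_, t, ⟨y, hy, rfl⟩, ht, rfl⟩
  simp only at ht ⊢
  have hx := perp hu y
  have h0 := mem_closedBall_zero_iff.1 (hE hy)
  have h5 := norm_add_sq_real (y - ⟪y, u⟫ • u) (⟪y, u⟫ • u)
  generalize ⟪y, u⟫ = a at *
  rw [sub_add_cancel, inner_smul_right, hx] at h5
  generalize y - a • u = x at *
  have h1 := ENNReal.toReal_le_of_le_ofReal (by positivity) (ell_le hE hu hx)
  have h3 : ‖y‖ ^ 2 ≤ R ^ 2 := pow_le_pow_left₀ (norm_nonneg _) h0 2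
  have h4 := Real.sq_sqrt (show 0 ≤ R ^ 2 - ‖x‖ ^ 2 by nlinarith [sq_nonneg ‖a • u‖])
  have h2 := norm_add_sq_real x (t • u)
  rw [inner_smul_right, hx, norm_smul, hu, Real.norm_eq_abs, mul_one] at h2
  rw [mem_closedBall_zero_iff]
  have h6 : |t| ^ 2 ≤ √(R ^ 2 - ‖x‖ ^ 2) ^ 2 := pow_le_pow_left₀ (abs_nonneg _) (by linarith) 2
  exact (abs_le_of_sq_le_sq' (by linarith) ((norm_nonneg _).trans h0)).2

lemma inn_sub {E F : Set (V n)} {R : ℝ} (hE : E ⊆ closedBall 0 R) (hF : F ⊆ E) {u : V n}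
    (hu : ‖u‖ = 1) : inn u F ⊆ stein u E := by
  intro z hz
  have h1 : ENNReal.ofReal (2 * |⟪z, u⟫|) < ell E u z :=
    lt_of_lt_of_le hz (measure_mono fun t ht => hF ht)
  obtain ⟨s, hs⟩ : {t : ℝ | z + t • u ∈ E}.Nonempty :=
    nonempty_of_measure_ne_zero (μ := volume) (ne_bot_of_gt h1)
  refine ⟨z - ⟪z, u⟫ • u, ⟪z, u⟫, ⟨_, hs, ?_⟩, ?_, by simp⟩
  · simp only [inner_add_left, inner_smul_left, real_inner_self_eq_norm_sq, hu, conj_trivial]
    module
  · rw [sub_eq_add_neg, ← neg_smul, ell_shift]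
    rw [ENNReal.ofReal_lt_iff_lt_toReal (by positivity) (ell_fin hE hu z)] at h1
    linarith

lemma iter_ball {u : ℕ → V n} (hu : ∀ i, ‖u i‖ = 1) {E : Set (V n)} {R : ℝ} {j : ℕ}
    (h : iter u E j ⊆ closedBall 0 R) {i : ℕ} (hi : j ≤ i) : iter u E i ⊆ closedBall 0 R := by
  induction i, hi using Nat.le_induction with
  | base => exact h
  | succ i _ ih => exact stein_ball ih (hu i)

lemma iter_vol {u : ℕ → V n} (hu : ∀ i, ‖u i‖ = 1) {E : Set (V n)} (hE : IsCompact E) (i : ℕ) :
    ∃ F, MeasurableSet F ∧ F ⊆ iter u E i ∧ volume F = volume E := by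
  obtain ⟨R, hR⟩ := hE.isBounded.subset_closedBall 0
  induction i with
  | zero => exact ⟨E, hE.measurableSet, subset_rfl, rfl⟩
  | succ i ih =>
    obtain ⟨F, h1, h2, h3⟩ := ih
    have hb := iter_ball (j := 0) hu hR (Nat.zero_le i)
    exact ⟨inn (u i) F, inn_meas h1 _, inn_sub hb h2 (hu i),
      (inn_vol h1 (hu i) (ell_fin (h2.trans hb) (hu i))).trans h3⟩

theorem result (n : ℕ) (hn : 2 ≤ n) (E : Set (V n)) (hE : IsCompact E)
    (hi : (interior E).Nonempty) (r : ℝ) (hr : volume (closedBall (0 : V n) r) = volume E)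
    (u : ℕ → V n) (hu : ∀ i, ‖u i‖ = 1) (φ : ℕ → ℕ) (hφ : StrictMono φ)
    (h : Tendsto (fun j => hausdorffEDist (iter u E (φ j)) (closedBall 0 r)) atTop (𝓝 0)) :
    Tendsto (fun i => hausdorffEDist (iter u E i) (closedBall 0 r)) atTop (𝓝 0) := by
  have : Nontrivial (V n) := by
    apply Module.nontrivial_of_finrank_pos (R := ℝ)
    simp; omega
  have hpos : 0 < volume E := Measure.measure_pos_of_nonempty_interior _ hi
  have hr0 : 0 < r := by
    by_contra hc
    have : closedBall (0 : V n) r ⊆ {0} := by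
      intro x hx
      have := mem_closedBall_zero_iff.1 hx
      have h2 := norm_nonneg x
      exact norm_eq_zero.1 (by linarith)
    have := measure_mono (μ := volume) this
    rw [measure_singleton, hr] at this
    exact absurd this (not_le.2 hpos)
  rw [ENNReal.tendsto_nhds_zero] at h ⊢
  intro ε hε
  obtain ⟨e, he0, he, her⟩ : ∃ e : ℝ, 0 < e ∧ ENNReal.ofReal (2 * e) ≤ ε ∧ e ≤ r := by
    by_cases ht : ε = ⊤
    · exact ⟨r, hr0, by simp [ht], le_rfl⟩
    · have := ENNReal.toReal_pos hε.ne' ht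
      refine ⟨min (ε.toReal / 2) r, by positivity, ?_, min_le_right _ _⟩
      apply ENNReal.ofReal_le_of_le_toReal
      linarith [min_le_left (ε.toReal / 2) r]
  obtain ⟨δ, hδ0, hδe, hδ⟩ : ∃ δ : ℝ, 0 < δ ∧ δ ≤ e ∧ (r + δ) ^ n < r ^ n + e ^ n := by
    have hc : ContinuousAt (fun d : ℝ => (r + d) ^ n) 0 := by fun_prop
    have h1 : ∀ᶠ d in 𝓝[>] (0 : ℝ), (r + d) ^ n < r ^ n + e ^ n :=
      nhdsWithin_le_nhds (hc.eventually (gt_mem_nhds (by simp; positivity)))
    obtain ⟨d, h2, h3⟩ := (h1.and (Ioo_mem_nhdsGT he0)).exists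
    exact ⟨d, h3.1, h3.2.le, h2⟩
  obtain ⟨j, hj⟩ := (h (ENNReal.ofReal (δ / 2)) (by simpa using hδ0)).exists
  have hb : iter u E (φ j) ⊆ closedBall 0 (r + δ) := by
    intro x hx
    obtain ⟨y, hy, hxy⟩ := exists_edist_lt_of_hausdorffEDist_lt (r := ENNReal.ofReal δ) hx
      (hj.trans_lt ((ENNReal.ofReal_lt_ofReal_iff hδ0).2 (by linarith)))
    rw [edist_lt_ofReal] at hxy
    have := dist_triangle x y 0
    rw [mem_closedBall] at hy ⊢
    linarith
  filter_upwards [eventually_ge_atTop (φ j)] with i hi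
  have hbi := iter_ball hu hb hi
  refine le_trans ?_ he
  apply hausdorffEDist_le_of_mem_edist
  · intro x hx
    have hx' := mem_closedBall_zero_iff.1 (hbi hx)
    refine ⟨(r / (r + δ)) • x, ?_, ?_⟩
    · rw [mem_closedBall_zero_iff, norm_smul, Real.norm_of_nonneg (by positivity), div_mul_eq_mul_div,
        div_le_iff₀ (by positivity)]
      gcongr
    · rw [edist_le_ofReal (by positivity), dist_eq_norm]
      have : x - (r / (r + δ)) • x = (δ / (r + δ)) • x := by
        rw [show δ / (r + δ) = 1 - r / (r + δ) by field_simp; ring]; module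
      rw [this, norm_smul, Real.norm_of_nonneg (by positivity), div_mul_eq_mul_div,
        div_le_iff₀ (by positivity)]
      nlinarith
  · intro x hx
    have hx' := mem_closedBall_zero_iff.1 hx
    by_contra hc
    push Not at hc
    obtain ⟨F, hF, hFs, hFv⟩ := iter_vol hu hE i
    set c := (1 - e / r) • x
    have hcx : ‖x - c‖ ≤ e := by
      have : x - c = (e / r) • x := by simp only [c]; module
      rw [this, norm_smul, Real.norm_of_nonneg (by positivity), div_mul_eq_mul_div, div_le_iff₀ hr0]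
      gcongr
    have hcn : ‖c‖ ≤ r - e := by
      have h1 : 0 ≤ 1 - e / r := by rw [sub_nonneg, div_le_one hr0]; exact her
      rw [norm_smul, Real.norm_of_nonneg h1]
      calc _ ≤ (1 - e / r) * r := by gcongr
        _ = r - e := by field_simp
    have hd : Disjoint F (closedBall c e) := by
      rw [Set.disjoint_left]
      intro y hy hy2
      have h1 := hc y (hFs hy)
      rw [← not_le, edist_le_ofReal (by positivity)] at h1
      have h2 := dist_triangle x c y
      rw [mem_closedBall'] at hy2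
      rw [← dist_eq_norm] at hcx
      linarith
    have hs : F ∪ closedBall c e ⊆ closedBall 0 (r + δ) := by
      apply union_subset (hFs.trans hbi)
      apply closedBall_subset_closedBall'
      rw [dist_zero_right]; linarith
    have h1 := measure_mono (μ := volume) hs
    rw [measure_union hd measurableSet_closedBall, hFv, ← hr,
      Measure.addHaar_closedBall _ _ hr0.le, Measure.addHaar_closedBall _ _ he0.le,
      Measure.addHaar_closedBall _ _ (show 0 ≤ r + δ by positivity), ← add_mul,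
      ENNReal.mul_le_mul_iff_left (measure_ball_pos _ _ one_pos).ne' measure_ball_lt_top.ne,
      ← ENNReal.ofReal_add (by positivity) (by positivity),
      ENNReal.ofReal_le_ofReal_iff (by positivity), finrank_euclideanSpace_fin] at h1
    linarith

end Pool.Agent.Results.MP_c699aa_gt.Full
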